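import Pool.Agent.H930Z.Riem.Main

namespace Pool.Agent.Results.MP_4b14b2_mp.ACounterexample

open H930Z.Riem

/-- There are two deformations of the Riemann hierarchy whose first flows have the same
coefficients `b_k`, `k ≥ 2`, and that are not Miura equivalent. -/
theorem result : ∃ Q Q' : ℕ → Ahat, IsDeformation Q ∧ IsDeformation Q' ∧
    (∀ k, 2 ≤ k → b k (Q 1) = b k (Q' 1)) ∧ ¬ MiuraEquiv Q Q' := main

end Pool.Agent.Results.MP_4b14b2_mp.ACounterexample
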